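import Mathlib
import Pool.Agent.V1128.SL2.Field

set_option autoImplicit false
set_option linter.unusedSimpArgs false

namespace Pool.Agent.Results.MP_b9311c_al.QuaternionUnits

open Pool.Agent.V1128.SL2

/-- The subgroup `M` is abelian. -/
def Ab {G : Type} [Group G] (M : Subgroup G) : Prop := ∀ x ∈ M, ∀ y ∈ M, x * y = y * x

/-- A CSA-group: every maximal abelian subgroup `M` is malnormal, that is, `M ∩ g M g⁻¹ = 1` for
every `g` outside `M`. -/
def IsCSA (G : Type) [Group G] : Prop :=
  ∀ M : Subgroup G, Ab M → (∀ M' : Subgroup G, Ab M' → M ≤ M' → M' = M) →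
    ∀ g : G, g ∉ M → ∀ x ∈ M, ∀ y ∈ M, x = g * y * g⁻¹ → x = 1

/-- A profinite group is pro-`p` if all its open normal subgroups have index a power of `p`. -/
def IsProP (p : ℕ) (G : Type) [Group G] [TopologicalSpace G] : Prop :=
  ∀ U : Subgroup G, U.Normal → IsOpen (U : Set G) → ∃ k : ℕ, U.index = p ^ k

open scoped PowerSeries.WithPiTopology
open PowerSeries

variable {K : Type} [Field K] [Finite K] [TopologicalSpace K] [DiscreteTopology K]
  [CharP K 2] (h4 : ∀ x : K, x ^ 4 = x)

/-- The automorphism of the power series ring given by squaring the coefficients. -/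
def sg (K : Type) [Field K] [CharP K 2] : PowerSeries K →+* PowerSeries K := PowerSeries.map (frobenius K 2)

omit [Finite K] in
theorem sg_cont : Continuous (sg K) := by
  refine continuous_pi fun d => ?_
  have h1 : Continuous fun f : PowerSeries K => frobenius K 2 (PowerSeries.coeff (d ()) f) :=
    (continuous_of_discreteTopology (f := frobenius K 2)).comp
      (PowerSeries.WithPiTopology.continuous_coeff K (d ()))
  convert h1 using 2 with f
  have h2 : MvPowerSeries.coeff d (sg K f) = PowerSeries.coeff (d ()) (sg K f) := by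
    rw [PowerSeries.coeff]
    congr 2
    ext
    simp
  change MvPowerSeries.coeff d (sg K f) = _
  rw [h2, sg, PowerSeries.coeff_map]

omit [Finite K] [TopologicalSpace K] [DiscreteTopology K] in
include h4 in
theorem sg_sg (f : PowerSeries K) : sg K (sg K f) = f := by
  ext n
  simp only [sg, PowerSeries.coeff_map, frobenius_def]
  rw [← pow_mul]
  exact h4 _

omit [Finite K] [TopologicalSpace K] [DiscreteTopology K] in
theorem sg_X : sg K X = X := by
  simp [sg]

omit [Finite K] [TopologicalSpace K] [DiscreteTopology K] in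
theorem sg_ne {f : PowerSeries K} (hf : f ≠ 0) : (sg K f).order = f.order := by
  rw [← PowerSeries.coe_toNat_order hf, PowerSeries.order_eq_nat]
  refine ⟨?_, fun i hi => ?_⟩
  · rw [sg, PowerSeries.coeff_map, frobenius_def]
    exact pow_ne_zero 2 (PowerSeries.coeff_order hf)
  · rw [sg, PowerSeries.coeff_map, PowerSeries.coeff_of_lt_order_toNat i hi, map_zero]

omit [Finite K] [TopologicalSpace K] [DiscreteTopology K] in
/-- The norm form is anisotropic. -/
theorem aniso {a b : PowerSeries K} (h : a * sg K a - b * (X * sg K b) = 0) : a = 0 ∧ b = 0 := by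
  by_cases ha : a = 0
  · refine ⟨ha, ?_⟩
    by_contra hb
    rw [ha, zero_mul, zero_sub, neg_eq_zero, mul_eq_zero, mul_eq_zero] at h
    rcases h with h | h | h
    · exact hb h
    · exact PowerSeries.X_ne_zero h
    · apply hb
      have := sg_ne hb
      rw [h, PowerSeries.order_zero] at this
      exact PowerSeries.order_eq_top.mp this.symm
  · exfalso
    have h1 : a * sg K a = b * (X * sg K b) := sub_eq_zero.mp h
    have hb : b ≠ 0 := by
      rintro rfl
      rw [zero_mul, mul_eq_zero] at h1
      rcases h1 with h1 | h1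
      · exact ha h1
      · apply ha
        have := sg_ne ha
        rw [h1, PowerSeries.order_zero] at this
        exact PowerSeries.order_eq_top.mp this.symm
    have h2 := congrArg PowerSeries.order h1
    rw [PowerSeries.order_mul, PowerSeries.order_mul, PowerSeries.order_mul, sg_ne ha, sg_ne hb,
      PowerSeries.order_X, ← PowerSeries.coe_toNat_order ha, ← PowerSeries.coe_toNat_order hb] at h2
    norm_cast at h2
    omega

/-- The group. -/
def GG : Subgroup (Matrix.SpecialLinearGroup (Fin 2) (PowerSeries K)) where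
  carrier := {A | A.1 1 1 = sg K (A.1 0 0) ∧ A.1 1 0 = X * sg K (A.1 0 1)}
  one_mem' := by
    constructor
    · rw [one11, one00, map_one]
    · rw [one10, one01, map_zero, mul_zero]
  mul_mem' := by
    rintro A B ⟨a1, a2⟩ ⟨b1, b2⟩
    constructor
    · rw [mul11, mul00, a1, a2, b1, b2, map_add, map_mul, map_mul, map_mul, sg_X, sg_sg h4]
      ring
    · rw [mul10, mul01, a1, a2, b1, b2, map_add, map_mul, map_mul, sg_sg h4]
      ring
  inv_mem' := by
    rintro A ⟨a1, a2⟩
    have e : A⁻¹.1 = !![A.1 1 1, -A.1 0 1; -A.1 1 0, A.1 0 0] := by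
      rw [Matrix.SpecialLinearGroup.coe_inv, Matrix.adjugate_fin_two]
    constructor
    · rw [e]
      simp only [Matrix.of_apply, Matrix.cons_val', Matrix.cons_val_zero, Matrix.cons_val_one]
      rw [a1, sg_sg h4]
    · rw [e]
      simp only [Matrix.of_apply, Matrix.cons_val', Matrix.cons_val_zero, Matrix.cons_val_one]
      rw [a2, map_neg]
      ring

omit [Finite K] [TopologicalSpace K] [DiscreteTopology K] in
/-- The matrices of the quaternion order have no zero divisors. -/
theorem zero_div {A B : Matrix (Fin 2) (Fin 2) (PowerSeries K)}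
    (hA : A 1 1 = sg K (A 0 0) ∧ A 1 0 = X * sg K (A 0 1))
    (hB : B 1 1 = sg K (B 0 0) ∧ B 1 0 = X * sg K (B 0 1)) (h : A * B = 0) : A = 0 ∨ B = 0 := by
  have key : ∀ A : Matrix (Fin 2) (Fin 2) (PowerSeries K),
      (A 1 1 = sg K (A 0 0) ∧ A 1 0 = X * sg K (A 0 1)) → A.det = 0 → A = 0 := by
    intro A hA hd
    rw [Matrix.det_fin_two, hA.1, hA.2] at hd
    obtain ⟨h1, h2⟩ := aniso hd
    ext i j : 1
    fin_cases i <;> fin_cases j <;> simp [h1, h2, hA.1, hA.2]
  have hdet := congrArg Matrix.det h
  rw [Matrix.det_mul, Matrix.det_zero, mul_eq_zero] at hdet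
  exact hdet.imp (key A hA) (key B hB)

omit [Finite K] [TopologicalSpace K] [DiscreteTopology K] in
theorem sub_mem {A B : Matrix.SpecialLinearGroup (Fin 2) (PowerSeries K)}
    (hA : A ∈ GG h4) (hB : B ∈ GG h4) :
    (A.1 - B.1) 1 1 = sg K ((A.1 - B.1) 0 0) ∧ (A.1 - B.1) 1 0 = X * sg K ((A.1 - B.1) 0 1) := by
  obtain ⟨a1, a2⟩ := hA
  obtain ⟨b1, b2⟩ := hB
  constructor
  · rw [Matrix.sub_apply, Matrix.sub_apply, a1, b1, map_sub]
  · rw [Matrix.sub_apply, Matrix.sub_apply, a2, b2, map_sub, mul_sub]

omit [Finite K] [TopologicalSpace K] [DiscreteTopology K] in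
theorem sq_one {g : Matrix.SpecialLinearGroup (Fin 2) (PowerSeries K)} (hg : g ∈ GG h4)
    (h : g * g = 1) : g = 1 := by
  have hchar : CharP (PowerSeries K) 2 := charP_of_injective_ringHom (C_injective (R := K)) 2
  have h1 := sub_mem h4 hg (GG h4).one_mem
  have h2 : (g.1 - (1 : Matrix.SpecialLinearGroup (Fin 2) (PowerSeries K)).1) *
      (g.1 - (1 : Matrix.SpecialLinearGroup (Fin 2) (PowerSeries K)).1) = 0 := by
    have h3 : g.1 * g.1 = 1 := congrArg Subtype.val h
    have h5 : (1 : Matrix.SpecialLinearGroup (Fin 2) (PowerSeries K)).1 = 1 := rfl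
    have h6 : (2 : Matrix (Fin 2) (Fin 2) (PowerSeries K)) = 0 := CharTwo.two_eq_zero
    rw [h5, mul_sub, sub_mul, h3, one_mul, mul_one, sub_sub_sub_comm]
    have : (1 : Matrix (Fin 2) (Fin 2) (PowerSeries K)) - g.1 - (g.1 - 1) = 2 * (1 - g.1) := by
      rw [two_mul]; abel
    calc _ = (1 : Matrix (Fin 2) (Fin 2) (PowerSeries K)) - g.1 - (g.1 - 1) := by abel
      _ = 0 := by rw [this, h6, zero_mul]
  have h3 : g.1 - (1 : Matrix.SpecialLinearGroup (Fin 2) (PowerSeries K)).1 = 0 := by
    rcases zero_div h1 h1 h2 with h | h <;> exact h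
  exact Subtype.ext (sub_eq_zero.mp h3)

omit [Finite K] [TopologicalSpace K] [DiscreteTopology K] in
theorem conj_cases {z w g : Matrix.SpecialLinearGroup (Fin 2) (PowerSeries K)} (hz : z ∈ GG h4)
    (hw : w ∈ GG h4) (hc : w * z = z * w) (h : w = g * z * g⁻¹) : w = z ∨ w = z⁻¹ := by
  have hscal : ∀ z : Matrix.SpecialLinearGroup (Fin 2) (PowerSeries K),
      z.1 + (z⁻¹).1 = (z.1 0 0 + z.1 1 1) • (1 : Matrix (Fin 2) (Fin 2) (PowerSeries K)) := by
    intro z
    rw [Matrix.SpecialLinearGroup.coe_inv, Matrix.adjugate_fin_two]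
    ext i j : 1
    fin_cases i <;> fin_cases j <;> simp [add_comm]
  have hsum : w.1 + (w⁻¹).1 = z.1 + (z⁻¹).1 := by
    have e1 : w.1 = g.1 * z.1 * (g⁻¹).1 := congrArg Subtype.val h
    have e2 : (w⁻¹).1 = g.1 * (z⁻¹).1 * (g⁻¹).1 := by
      have : w⁻¹ = g * z⁻¹ * g⁻¹ := by rw [h]; group
      exact congrArg Subtype.val this
    have e3 : g.1 * (g⁻¹).1 = 1 := congrArg Subtype.val (mul_inv_cancel g)
    rw [e1, e2, ← add_mul, ← mul_add, hscal z, mul_smul_comm, mul_one, smul_mul_assoc, e3]
  have hz' : z⁻¹ ∈ GG h4 := (GG h4).inv_mem hz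
  have key : (w.1 - z.1) * (w.1 - (z⁻¹).1) = 0 := by
    have e1 : w.1 * z.1 = z.1 * w.1 := congrArg Subtype.val hc
    have e2 : z.1 * (z⁻¹).1 = 1 := congrArg Subtype.val (mul_inv_cancel z)
    have e3 : w.1 * (w⁻¹).1 = 1 := congrArg Subtype.val (mul_inv_cancel w)
    have e4 : (w.1 - z.1) * (w.1 - (z⁻¹).1) = w.1 * w.1 - w.1 * (z.1 + (z⁻¹).1) + 1 := by
      rw [mul_sub, sub_mul, sub_mul, ← e1, e2, mul_add]
      abel
    rw [e4, ← hsum, mul_add, e3]
    abel
  rcases zero_div (sub_mem h4 hw hz) (sub_mem h4 hw hz') key with h | h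
  · exact Or.inl (Subtype.ext (sub_eq_zero.mp h))
  · exact Or.inr (Subtype.ext (sub_eq_zero.mp h))

omit [Finite K] [TopologicalSpace K] [DiscreteTopology K] in
theorem csa : IsCSA (GG h4) := by
  have hchar : CharP (PowerSeries K) 2 := charP_of_injective_ringHom (C_injective (R := K)) 2
  have hCA : ∀ g x y : GG h4, g ≠ 1 → x * g = g * x → y * g = g * y → x * y = y * x := by
    intro g x y hg hx hy
    apply Subtype.ext
    exact comm_trans_two (fun h => hg (Subtype.ext h)) (congrArg Subtype.val hx)
      (congrArg Subtype.val hy)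
  intro M hM hmax g hg x hx y hy hxy
  by_contra hx1
  have hy1 : y ≠ 1 := by
    rintro rfl
    apply hx1
    rw [hxy]
    group
  have hcent : ∀ z : GG h4, z * y = y * z → z ∈ M := by
    intro z hz
    have h1 : Ab (Subgroup.centralizer {y} : Subgroup (GG h4)) := by
      intro a ha b hb
      rw [Subgroup.mem_centralizer_singleton_iff] at ha hb
      exact hCA y a b hy1 ha hb
    have h2 := hmax _ h1 (fun a ha => by
      rw [Subgroup.mem_centralizer_singleton_iff]
      exact hM a ha y hy)
    rw [← h2, Subgroup.mem_centralizer_singleton_iff]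
    exact hz
  have h3 := conj_cases h4 y.2 x.2 (congrArg Subtype.val (hM x hx y hy)) (congrArg Subtype.val hxy)
  rcases h3 with h3 | h3
  · have h5 : x = y := Subtype.ext h3
    rw [h5] at hxy
    apply hg
    apply hcent
    rw [_root_.eq_mul_inv_iff_mul_eq] at hxy
    exact hxy.symm
  · have h5 : x = y⁻¹ := Subtype.ext h3
    have h6 : g * y * g⁻¹ = y⁻¹ := by rw [← hxy, h5]
    have h7 : (g * g) * y = y * (g * g) := by
      have : g * g * y = (g * (g * y * g⁻¹) * g⁻¹) * (g * g) := by group
      rw [this, h6]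
      have : g * y⁻¹ * g⁻¹ = (g * y * g⁻¹)⁻¹ := by group
      rw [this, h6, inv_inv]
    by_cases h8 : g * g = 1
    · have h9 : (g : Matrix.SpecialLinearGroup (Fin 2) (PowerSeries K)) = 1 :=
        sq_one h4 g.2 (congrArg Subtype.val h8)
      apply hg
      rw [show g = 1 from Subtype.ext h9]
      exact M.one_mem
    · exact hg (hcent g (hCA (g * g) g y h8 (by group) h7.symm))

omit [Finite K] in
theorem GG_closed : IsClosed (GG h4 : Set (Matrix.SpecialLinearGroup (Fin 2) (PowerSeries K))) := by
  have hval : Continuous (Subtype.val :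
      Matrix.SpecialLinearGroup (Fin 2) (PowerSeries K) → Matrix (Fin 2) (Fin 2) (PowerSeries K)) :=
    continuous_subtype_val
  have hent : ∀ i j : Fin 2, Continuous (fun A : Matrix.SpecialLinearGroup (Fin 2) (PowerSeries K) =>
      A.1 i j) := fun i j => hval.matrix_elem i j
  have h1 : IsClosed {A : Matrix.SpecialLinearGroup (Fin 2) (PowerSeries K) |
      A.1 1 1 = sg K (A.1 0 0)} := isClosed_eq (hent 1 1) (sg_cont.comp (hent 0 0))
  have h2 : IsClosed {A : Matrix.SpecialLinearGroup (Fin 2) (PowerSeries K) |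
      A.1 1 0 = X * sg K (A.1 0 1)} :=
    isClosed_eq (hent 1 0) (continuous_const.mul (sg_cont.comp (hent 0 1)))
  exact h1.inter h2

include h4 in
theorem main (hω : ∃ ω : K, ω ^ 2 + ω + 1 = 0) :
    ∃ (G : Type) (_ : Group G) (_ : TopologicalSpace G) (_ : IsTopologicalGroup G),
      CompactSpace G ∧ T2Space G ∧ TotallyDisconnectedSpace G ∧
      (∃ x y : G, x * y ≠ y * x) ∧ IsCSA G ∧ ∀ p : ℕ, p.Prime → ¬ IsProP p G := by
  obtain ⟨ω, hω⟩ := hω
  have hK2 : (2 : K) = 0 := CharTwo.two_eq_zero
  have hω3 : ω * ω ^ 2 = 1 := by linear_combination (ω - 1) * hω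
  have hω0 : ω ≠ 0 := by
    rintro rfl
    simp at hω
  have hω1 : ω ≠ 1 := by
    rintro rfl
    have : (1 : K) = 0 := by linear_combination hω - hK2
    exact one_ne_zero this
  have hcl : Topology.IsClosedEmbedding
      ((↑) : Matrix.SpecialLinearGroup (Fin 2) (PowerSeries K) → Matrix (Fin 2) (Fin 2) (PowerSeries K)) :=
    Matrix.SpecialLinearGroup.isClosedEmbedding_val
  have h1 : CompactSpace (PowerSeries K) := inferInstanceAs (CompactSpace ((Unit →₀ ℕ) → K))
  have h2 : TotallyDisconnectedSpace (PowerSeries K) :=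
    inferInstanceAs (TotallyDisconnectedSpace ((Unit →₀ ℕ) → K))
  have hcomp : CompactSpace (Matrix (Fin 2) (Fin 2) (PowerSeries K)) :=
    inferInstanceAs (CompactSpace (Fin 2 → Fin 2 → (PowerSeries K)))
  have htd : TotallyDisconnectedSpace (Matrix (Fin 2) (Fin 2) (PowerSeries K)) :=
    inferInstanceAs (TotallyDisconnectedSpace (Fin 2 → Fin 2 → (PowerSeries K)))
  have hG1 : CompactSpace (Matrix.SpecialLinearGroup (Fin 2) (PowerSeries K)) := hcl.compactSpace
  have hG2 : T2Space (Matrix.SpecialLinearGroup (Fin 2) (PowerSeries K)) := hcl.isEmbedding.t2Space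
  have hG3 : TotallyDisconnectedSpace (Matrix.SpecialLinearGroup (Fin 2) (PowerSeries K)) :=
    hcl.isEmbedding.isTotallyDisconnected_range.mp
      (isTotallyDisconnected_of_totallyDisconnectedSpace _)
  have hG4 : CompactSpace (GG h4) := isCompact_iff_compactSpace.mp (GG_closed h4).isCompact
  have hchar : CharP (PowerSeries K) 2 := charP_of_injective_ringHom (C_injective (R := K)) 2
  have hP2 : (2 : PowerSeries K) = 0 := CharTwo.two_eq_zero
  have hCω : (C (R := K) ω) ^ 2 + C (R := K) ω + 1 = 0 := by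
    rw [← map_pow, ← map_add, ← map_one (C (R := K)), ← map_add, hω, map_zero]
  have hCω3 : (C (R := K) ω) * (C (R := K) ω) ^ 2 = 1 := by
    rw [← map_pow, ← map_mul, hω3, map_one]
  have hsC : ∀ a : K, sg K (C (R := K) a) = C (R := K) (a ^ 2) := by
    intro a
    simp [sg, frobenius_def]
  -- the elements
  set v : PowerSeries K := PowerSeries.mk 1 with hv
  have hv1 : v * (1 + X) = 1 := by
    have := PowerSeries.mk_one_mul_one_sub_eq_one K
    rw [← hv] at this
    linear_combination this + v * X * hP2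
  have hsv : sg K v = v := by
    ext n
    simp [sg, hv, frobenius_def]
  set w : PowerSeries K := C (R := K) ω with hw
  have hsw : sg K w = w ^ 2 := by rw [hw, hsC, map_pow]
  let d : Matrix.SpecialLinearGroup (Fin 2) (PowerSeries K) :=
    ⟨!![w, 0; 0, w ^ 2], by rw [Matrix.det_fin_two_of, hCω3]; ring⟩
  have hd : d ∈ GG h4 := by
    constructor
    · change w ^ 2 = sg K w
      rw [hsw]
    · change (0 : PowerSeries K) = X * sg K 0
      rw [map_zero, mul_zero]
  have hdetg : (w + w ^ 2 * X) * v * ((w ^ 2 + w * X) * v) - v * (X * v) = 1 := by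
    have e : (w + w ^ 2 * X) * v * ((w ^ 2 + w * X) * v) - v * (X * v) =
        (v * (1 + X)) ^ 2 := by
      linear_combination (v ^ 2 * (1 + X ^ 2 + X * w)) * hCω3 + (v ^ 2 * X) * hCω -
        (2 * v ^ 2 * X) * hP2
    rw [e, hv1, one_pow]
  let g : Matrix.SpecialLinearGroup (Fin 2) (PowerSeries K) :=
    ⟨!![(w + w ^ 2 * X) * v, v; X * v, (w ^ 2 + w * X) * v], by
      rw [Matrix.det_fin_two_of, hdetg]⟩
  have hg : g ∈ GG h4 := by
    constructor
    · change (w ^ 2 + w * X) * v = sg K ((w + w ^ 2 * X) * v)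
      rw [map_mul, map_add, map_mul, map_pow, hsw, sg_X, hsv]
      linear_combination (-(w * X * v)) * hCω3
    · change X * v = X * sg K v
      rw [hsv]
  let δ : GG h4 := ⟨d, hd⟩
  let u : Kˣ := Units.mkOfMulEqOne ω (ω ^ 2) hω3
  let Γ : GG h4 := ⟨g, hg⟩
  let φ : GG h4 →* Matrix.SpecialLinearGroup (Fin 2) K :=
    (Matrix.SpecialLinearGroup.map (constantCoeff (R := K))).comp (GG h4).subtype
  have hcv : constantCoeff (R := K) v = 1 := by simp [hv]
  have hcw : constantCoeff (R := K) w = ω := by simp [hw]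
  have hu : (u : K) = ω := rfl
  have hu' : ((u⁻¹ : Kˣ) : K) = ω ^ 2 := rfl
  have hφd : φ δ = D u := by
    apply ext2
    · change constantCoeff (R := K) w = ω
      exact hcw
    · change constantCoeff (R := K) 0 = 0
      exact map_zero _
    · change constantCoeff (R := K) 0 = 0
      exact map_zero _
    · change constantCoeff (R := K) (w ^ 2) = ω ^ 2
      rw [map_pow, hcw]
  have hφg : φ Γ = E ω * φ δ := by
    rw [hφd]
    apply ext2
    · rw [mul00, E00, E01, D00, D10, hu]
      change constantCoeff (R := K) ((w + w ^ 2 * X) * v) = 1 * ω + ω * 0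
      rw [map_mul, map_add, map_mul, map_pow, hcw, hcv, constantCoeff_X]
      ring
    · rw [mul01, E00, E01, D01, D11, hu']
      change constantCoeff (R := K) v = 1 * 0 + ω * ω ^ 2
      rw [hcv, hω3]
      ring
    · rw [mul10, E10, E11, D00, D10, hu]
      change constantCoeff (R := K) (X * v) = 0 * ω + 1 * 0
      rw [map_mul, constantCoeff_X]
      ring
    · rw [mul11, E10, E11, D01, D11, hu']
      change constantCoeff (R := K) ((w ^ 2 + w * X) * v) = 0 * 0 + 1 * ω ^ 2
      rw [map_mul, map_add, map_mul, map_pow, hcw, hcv, constantCoeff_X]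
      ring
  have hφu : φ (Γ * δ⁻¹) = E ω := by
    rw [map_mul, map_inv, hφg, mul_inv_cancel_right]
  refine ⟨GG h4, inferInstance, inferInstance, inferInstance, hG4, inferInstance, inferInstance,
    ⟨Γ, δ, ?_⟩, csa h4, ?_⟩
  · intro h
    have h3 := congrArg φ h
    rw [map_mul, map_mul, hφg, hφd] at h3
    have h5 := congrArg (fun A : Matrix.SpecialLinearGroup (Fin 2) K => A.1 0 1) h3
    simp only [mul00, mul01, mul10, mul11, E00, E01, E10, E11, D00, D01, D10, D11, hu, hu'] at h5
    have h6 : ω * (ω - 1) = 0 := by linear_combination h5 - (ω ^ 2 - ω) * hω3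
    rcases mul_eq_zero.mp h6 with h7 | h7
    · exact hω0 h7
    · exact hω1 (sub_eq_zero.mp h7)
  · intro p hp hprop
    have hopen : IsOpen ((φ.ker : Subgroup (GG h4)) : Set (GG h4)) := by
      have hcont : Continuous φ :=
        (Continuous.specialLinearGroup_map (PowerSeries.WithPiTopology.continuous_constantCoeff K)).comp
          continuous_subtype_val
      have hd : DiscreteTopology (Matrix.SpecialLinearGroup (Fin 2) K) := inferInstance
      exact (isOpen_discrete {(1 : Matrix.SpecialLinearGroup (Fin 2) K)}).preimage hcont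
    obtain ⟨k, hk⟩ := hprop φ.ker inferInstance hopen
    have hdvd : ∀ (x : GG h4) (q : ℕ), q.Prime → φ x ^ q = 1 → φ x ≠ 1 → q ∣ p ^ k := by
      intro x q hq h5 h6
      have h7 : orderOf (x : GG h4 ⧸ φ.ker) = q := by
        have : Fact q.Prime := ⟨hq⟩
        apply orderOf_eq_prime
        · rw [← QuotientGroup.mk_pow, QuotientGroup.eq_one_iff, MonoidHom.mem_ker, map_pow]
          exact h5
        · rw [ne_eq, QuotientGroup.eq_one_iff, MonoidHom.mem_ker]
          exact h6
      rw [← hk, Subgroup.index, ← h7]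
      exact orderOf_dvd_natCard _
    have h2 : 2 ∣ p ^ k := by
      apply hdvd (Γ * δ⁻¹) 2 Nat.prime_two
      · rw [hφu, pow_two, E_add, show ω + ω = 2 * ω by ring, hK2, zero_mul, E_zero]
      · rw [hφu]
        intro h
        have := congrArg (fun A : Matrix.SpecialLinearGroup (Fin 2) K => A.1 0 1) h
        simp only [E01, one01] at this
        exact hω0 this
    have h3 : 3 ∣ p ^ k := by
      apply hdvd δ 3 Nat.prime_three
      · rw [hφd]
        have e : D u ^ 3 = D (u ^ 3) := by
          apply ext2 <;> simp only [pow_succ, pow_zero, one_mul, mul00, mul01, mul10, mul11, D00, D01,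
            D10, D11, Units.val_mul, _root_.mul_inv_rev] <;> ring
        have e2 : u ^ 3 = 1 := by
          apply Units.ext
          rw [Units.val_pow_eq_pow_val, hu, Units.val_one]
          linear_combination hω3
        rw [e, e2]
        apply ext2
        · rw [D00, one00, Units.val_one]
        · rw [D01, one01]
        · rw [D10, one10]
        · rw [D11, one11, inv_one, Units.val_one]
      · rw [hφd]
        intro h
        have := congrArg (fun A : Matrix.SpecialLinearGroup (Fin 2) K => A.1 0 0) h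
        exact hω1 this
    have e2 := (Nat.prime_dvd_prime_iff_eq Nat.prime_two hp).mp (Nat.prime_two.dvd_of_dvd_pow h2)
    have e3 := (Nat.prime_dvd_prime_iff_eq Nat.prime_three hp).mp (Nat.prime_three.dvd_of_dvd_pow h3)
    omega

/-- There is a non-abelian profinite CSA-group that is not pro-`p` for any prime `p`. -/
theorem result : ∃ (G : Type) (_ : Group G) (_ : TopologicalSpace G) (_ : IsTopologicalGroup G),
    CompactSpace G ∧ T2Space G ∧ TotallyDisconnectedSpace G ∧
    (∃ x y : G, x * y ≠ y * x) ∧ IsCSA G ∧ ∀ p : ℕ, p.Prime → ¬ IsProP p G := by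
  let _ : TopologicalSpace (GaloisField 2 2) := ⊥
  have _ : DiscreteTopology (GaloisField 2 2) := ⟨rfl⟩
  have hcard : Nat.card (GaloisField 2 2) = 2 ^ 2 := GaloisField.card 2 2 (by norm_num)
  have h4 : ∀ x : GaloisField 2 2, x ^ 4 = x := by
    intro x
    have := Fintype.ofFinite (GaloisField 2 2)
    have h := FiniteField.pow_card x
    rw [← Nat.card_eq_fintype_card, hcard] at h
    exact h
  apply main h4
  obtain ⟨u, hu0, hu1⟩ : ∃ u : GaloisField 2 2, u ≠ 0 ∧ u ≠ 1 := by
    by_contra hc
    push Not at hc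
    have h4 : Nat.card (GaloisField 2 2) ≤ 2 := by
      have h5 : Function.Surjective (fun b : Bool => if b then (1 : GaloisField 2 2) else 0) := by
        intro x
        by_cases h : x = 0
        · exact ⟨false, by simp [h]⟩
        · exact ⟨true, by simp [hc x h]⟩
      have := Nat.card_le_card_of_surjective _ h5
      simpa using this
    rw [hcard] at h4
    omega
  refine ⟨u, ?_⟩
  have h5 : u * (u - 1) * (u ^ 2 + u + 1) = 0 := by linear_combination h4 u
  rcases mul_eq_zero.mp h5 with h6 | h6
  · rcases mul_eq_zero.mp h6 with h7 | h7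
    · exact absurd h7 hu0
    · exact absurd (sub_eq_zero.mp h7) hu1
  · exact h6

end Pool.Agent.Results.MP_b9311c_al.QuaternionUnits
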